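import Mathlib
import Pool.Agent.H71.Conic.General

/-!
# Special sets of affine log Calabi-Yau and log Fano complete intersections

Let `Y ⊆ P^N` be defined by homogeneous polynomials `G_1, …, G_c` of degrees `e_1, …, e_c`, `c < N`,
let `D = Y ∩ {F = 0}` be a hyperplane section (`F` homogeneous of degree `1`), and `X = Y \ D`.
If `e_1 + … + e_c ≤ N`, then through every point of `X` passes a conic or a line which is
contained in `Y` and meets the hyperplane in at most two points; more precisely every point of `X`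
lies on the image of a non-constant morphism `t ↦ [P + t Q + t² R]` from the multiplicative group
`G_m` to `X`.  Consequently the special sets `Sp_sab`, `Sp_h`, `Sp_p`, `Sp_alg` are all equal to
`X`.
-/

set_option autoImplicit false

open Filter Topology

namespace Pool.Agent.Results.MP_160ed4_ag.AffineConics

open scoped LinearAlgebra.Projectivization

/-- Complex projective space `P^N`: the set of lines through the origin in `ℂ^(N+1)`. -/
abbrev PSpace (N : ℕ) : Type := ℙ ℂ (Fin (N + 1) → ℂ)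

/-- The (homogeneous) polynomial `G` vanishes at the point `p` of `P^N`. -/
def VanishesAt {N : ℕ} (G : MvPolynomial (Fin (N + 1)) ℂ) (p : PSpace N) : Prop :=
  MvPolynomial.eval p.rep G = 0

/-- The quasi-projective set `X = {G_1 = … = G_c = 0, F ≠ 0}` in `P^N`. -/
def quasiProjective {N c : ℕ} (G : Fin c → MvPolynomial (Fin (N + 1)) ℂ)
    (F : MvPolynomial (Fin (N + 1)) ℂ) : Set (PSpace N) :=
  {p | (∀ i, VanishesAt (G i) p) ∧ ¬ VanishesAt F p}

/-- The Zariski closure in `X ⊆ P^N` of a subset `S` of `X`. -/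
def zariskiClosureIn {N : ℕ} (X S : Set (PSpace N)) : Set (PSpace N) :=
  {p | p ∈ X ∧ ∀ (m : ℕ) (Q : MvPolynomial (Fin (N + 1)) ℂ), Q.IsHomogeneous m →
    (∀ s ∈ S, VanishesAt Q s) → VanishesAt Q p}

/-- The map `f` to `P^N` is holomorphic at `z`: near `z` it is given by homogeneous coordinates
that are holomorphic and have no common zero. -/
def HolomorphicAt {N : ℕ} (f : ℂ → PSpace N) (z : ℂ) : Prop :=
  ∃ φ : ℂ → (Fin (N + 1) → ℂ), AnalyticAt ℂ φ z ∧
    ∀ᶠ w in 𝓝 z, ∃ h : φ w ≠ 0, f w = Projectivization.mk ℂ (φ w) h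

/-- `Sp_h(X)`: the Zariski closure in `X` of the union of the images of the non-constant
holomorphic maps `ℂ → X`. -/
def SpH {N : ℕ} (X : Set (PSpace N)) : Set (PSpace N) :=
  zariskiClosureIn X {x | ∃ f : ℂ → PSpace N, (∀ z, HolomorphicAt f z) ∧ (∀ z, f z ∈ X) ∧
    (∃ z w, f z ≠ f w) ∧ ∃ z, f z = x}

/-- `Sp_p(X)`: the Zariski closure in `X` of the union of the images of the holomorphic maps
from the punctured unit disc to `X` which have an essential singularity at `0`, that is, do not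
extend to a holomorphic map from the unit disc to `P^N` (equivalently to the closure of `X`). -/
def SpP {N : ℕ} (X : Set (PSpace N)) : Set (PSpace N) :=
  zariskiClosureIn X {x | ∃ f : ℂ → PSpace N,
    (∀ z, 0 < ‖z‖ → ‖z‖ < 1 → HolomorphicAt f z ∧ f z ∈ X) ∧
    (¬ ∃ g : ℂ → PSpace N, (∀ z, ‖z‖ < 1 → HolomorphicAt g z) ∧
      ∀ z, 0 < ‖z‖ → ‖z‖ < 1 → g z = f z) ∧
    ∃ z, 0 < ‖z‖ ∧ ‖z‖ < 1 ∧ f z = x}

/-- `Sp_Gm(X)`: the Zariski closure in `X` of the union of the images of the non-constant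
algebraic morphisms `G_m = ℂ \ {0} → X`.  Such a morphism is given by homogeneous coordinates
that are polynomials in `t` without common zero in `ℂ \ {0}`.  As `G_m` is a semi-abelian variety,
`Sp_Gm(X) ⊆ Sp_sab(X)`. -/
def SpGm {N : ℕ} (X : Set (PSpace N)) : Set (PSpace N) :=
  zariskiClosureIn X {x | ∃ (p : Fin (N + 1) → Polynomial ℂ) (f : ℂ → PSpace N),
    (∀ t : ℂ, t ≠ 0 → ∃ h : (fun i => (p i).eval t) ≠ 0,
      f t = Projectivization.mk ℂ (fun i => (p i).eval t) h) ∧
    (∀ t : ℂ, t ≠ 0 → f t ∈ X) ∧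
    (∃ s t : ℂ, s ≠ 0 ∧ t ≠ 0 ∧ f s ≠ f t) ∧ ∃ t : ℂ, t ≠ 0 ∧ f t = x}

/-! ### Auxiliary lemmas -/

lemma vanishesAt_mk {N m : ℕ} {G : MvPolynomial (Fin (N + 1)) ℂ} (hG : G.IsHomogeneous m)
    (v : Fin (N + 1) → ℂ) (hv : v ≠ 0) :
    VanishesAt G (Projectivization.mk ℂ v hv) ↔ MvPolynomial.eval v G = 0 := by
  obtain ⟨a, ha⟩ := Projectivization.exists_smul_eq_mk_rep ℂ v hv
  unfold VanishesAt
  rw [← ha]
  have : (a • v : Fin (N + 1) → ℂ) = (a : ℂ) • v := rfl
  rw [this, Pool.Agent.H71.Conic.eval_smul_hom hG]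
  simp

/-- The basic parametrisation: every point `x` of `X` lies on a curve
`t ↦ [P + t Q + t² R]` which lies in `X` for `t ≠ 0`. -/
lemma exists_parametrisation {N c : ℕ} (e : Fin c → ℕ)
    (G : Fin c → MvPolynomial (Fin (N + 1)) ℂ) (F : MvPolynomial (Fin (N + 1)) ℂ)
    (hG : ∀ i, (G i).IsHomogeneous (e i)) (hF : F.IsHomogeneous 1)
    (hdeg : ∑ i, e i ≤ N) (hc : c < N) (x : PSpace N) (hx : x ∈ quasiProjective G F) :
    ∃ (P Q R : Fin (N + 1) → ℂ) (hPQ : ∀ t : ℂ, t ≠ 0 → P + t • Q + t ^ 2 • R ≠ 0),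
      (∀ (t : ℂ) (ht : t ≠ 0), Projectivization.mk ℂ _ (hPQ t ht) ∈ quasiProjective G F) ∧
      Projectivization.mk ℂ _ (hPQ 1 one_ne_zero) = x ∧
      ∃ σ : ℂ, σ ≠ 0 ∧ ∀ r s : ℂ, r • (P + (1 : ℂ) • Q + (1 : ℂ) ^ 2 • R) =
        s • (P + σ • Q + σ ^ 2 • R) → r = 0 ∧ s = 0 := by
  obtain ⟨P, Q, R, h1, s0, s2, ρ, hs0, hs2, hρ, h2, h3⟩ :=
    Pool.Agent.H71.Conic.exists_param e G F hG hF hdeg hc x.rep hx.1 hx.2
  have hre : ∀ t : ℂ, P + t • (s0 • Q) + t ^ 2 • (s0 ^ 2 • R) =
      P + (t * s0) • Q + (t * s0) ^ 2 • R := by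
    intro t
    rw [smul_smul, smul_smul, mul_pow]
  have hne : ∀ t : ℂ, t ≠ 0 → P + t • (s0 • Q) + t ^ 2 • (s0 ^ 2 • R) ≠ 0 := by
    intro t ht h
    rw [hre] at h
    have h4 := (h1 _ (mul_ne_zero ht hs0)).1
    rw [h] at h4
    apply h4
    have h5 := Pool.Agent.H71.Conic.eval_smul_hom hF 0 (0 : Fin (N + 1) → ℂ)
    simpa using h5
  refine ⟨P, s0 • Q, s0 ^ 2 • R, hne, ?_, ?_, s2 / s0, div_ne_zero hs2 hs0, ?_⟩
  · intro t ht
    obtain ⟨h4, h5⟩ := h1 _ (mul_ne_zero ht hs0)
    refine ⟨fun i => ?_, ?_⟩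
    · rw [vanishesAt_mk (hG i), hre]
      exact h5 i
    · rw [vanishesAt_mk hF, hre]
      exact h4
  · have h4 : P + (1 : ℂ) • (s0 • Q) + (1 : ℂ) ^ 2 • (s0 ^ 2 • R) = ρ • x.rep := by
      rw [hre, one_mul, h2]
    have h5 : ∀ (w : Fin (N + 1) → ℂ) (hw : w ≠ 0), w = ρ • x.rep →
        Projectivization.mk ℂ w hw = x := by
      intro w hw h
      conv_rhs => rw [← x.mk_rep]
      rw [Projectivization.mk_eq_mk_iff']
      exact ⟨ρ, h.symm⟩
    exact h5 _ _ h4
  · intro r s hrs
    rw [hre, hre, one_mul, div_mul_cancel₀ _ hs0] at hrs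
    exact h3 r s hrs

lemma mk_ne_of_indep {N : ℕ} {u w : Fin (N + 1) → ℂ} (hu : u ≠ 0) (hw : w ≠ 0)
    (h : ∀ r s : ℂ, r • u = s • w → r = 0 ∧ s = 0) :
    Projectivization.mk ℂ u hu ≠ Projectivization.mk ℂ w hw := by
  intro he
  obtain ⟨k, hk⟩ := (Projectivization.mk_eq_mk_iff' ℂ u w hu hw).mp he
  have := h 1 k (by rw [one_smul, hk])
  exact one_ne_zero this.1

/-- A holomorphic map to `P^N` cannot take two different values along two sequences with the
same limit. -/
lemma not_extend {N : ℕ} (g : ℂ → PSpace N) (hg : HolomorphicAt g 0) (y z : ℕ → ℂ)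
    (hy : Tendsto y atTop (𝓝 0)) (hz : Tendsto z atTop (𝓝 0))
    (u w : Fin (N + 1) → ℂ) (hu : u ≠ 0) (hw : w ≠ 0)
    (hgy : ∀ᶠ k in atTop, g (y k) = Projectivization.mk ℂ u hu)
    (hgz : ∀ᶠ k in atTop, g (z k) = Projectivization.mk ℂ w hw)
    (h : ∀ r s : ℂ, r • u = s • w → r = 0 ∧ s = 0) : False := by
  obtain ⟨φ, hφ, hev⟩ := hg
  have key : ∀ (y : ℕ → ℂ) (u : Fin (N + 1) → ℂ) (hu : u ≠ 0), Tendsto y atTop (𝓝 0) →
      (∀ᶠ k in atTop, g (y k) = Projectivization.mk ℂ u hu) →
      φ 0 ∈ Submodule.span ℂ {u} := by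
    intro y u hu hy hgy
    have hclosed : IsClosed ((Submodule.span ℂ {u} : Submodule ℂ (Fin (N + 1) → ℂ)) :
        Set (Fin (N + 1) → ℂ)) := Submodule.closed_of_finiteDimensional _
    have hlim : Tendsto (fun k => φ (y k)) atTop (𝓝 (φ 0)) :=
      hφ.continuousAt.tendsto.comp hy
    refine hclosed.mem_of_tendsto hlim ?_
    have h1 := hy.eventually hev
    filter_upwards [h1, hgy] with k hk1 hk2
    obtain ⟨h0, h1⟩ := hk1
    rw [h1] at hk2
    obtain ⟨a, ha⟩ := (Projectivization.mk_eq_mk_iff' ℂ _ _ h0 hu).mp hk2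
    rw [SetLike.mem_coe, Submodule.mem_span_singleton]
    exact ⟨a, ha⟩
  have h1 := key y u hu hy hgy
  have h2 := key z w hw hz hgz
  rw [Submodule.mem_span_singleton] at h1 h2
  obtain ⟨r, hr⟩ := h1
  obtain ⟨s, hs⟩ := h2
  have := h r s (hr.trans hs.symm)
  obtain ⟨h0, -⟩ := hev.self_of_nhds
  apply h0
  rw [← hr, this.1, zero_smul]

lemma zariskiClosureIn_eq_of_subset {N : ℕ} {X S : Set (PSpace N)} (h : X ⊆ S) :
    zariskiClosureIn X S = X := by
  apply Set.Subset.antisymm
  · intro p hp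
    exact hp.1
  · intro p hp
    exact ⟨hp, fun m Q _ hQ => hQ p (h hp)⟩

/-- **Theorem.** Let `Y ⊆ P^N` be the zero set of homogeneous polynomials `G i` (`i < c`) of
degrees `e i`, let `F` be homogeneous of degree `1`, and `X = Y \ {F = 0}`.  If `c < N` and
`∑ e i ≤ N`, then

* every point of `X` is of the form `[P + Q + R]` for a non-constant curve
  `t ↦ [P + t Q + t² R]` (a line or a conic) lying in `X` for all `t ≠ 0`;
* `Sp_Gm(X) = X`, hence `Sp_sab(X) = X`;
* `Sp_h(X) = X`;
* `Sp_p(X) = X`. -/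
theorem result (N c : ℕ) (e : Fin c → ℕ)
    (G : Fin c → MvPolynomial (Fin (N + 1)) ℂ) (F : MvPolynomial (Fin (N + 1)) ℂ)
    (hG : ∀ i, (G i).IsHomogeneous (e i)) (hF : F.IsHomogeneous 1)
    (hdeg : ∑ i, e i ≤ N) (hc : c < N) :
    (∀ x ∈ quasiProjective G F, ∃ (P Q R : Fin (N + 1) → ℂ)
      (h : ∀ t : ℂ, t ≠ 0 → P + t • Q + t ^ 2 • R ≠ 0),
      (∀ (t : ℂ) (ht : t ≠ 0), Projectivization.mk ℂ _ (h t ht) ∈ quasiProjective G F) ∧
      (∃ (t : ℂ) (ht : t ≠ 0), Projectivization.mk ℂ _ (h t ht) ≠ x) ∧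
      Projectivization.mk ℂ _ (h 1 one_ne_zero) = x) ∧
    SpGm (quasiProjective G F) = quasiProjective G F ∧
    SpH (quasiProjective G F) = quasiProjective G F ∧
    SpP (quasiProjective G F) = quasiProjective G F := by
  have hpoly : ∀ (P Q R : Fin (N + 1) → ℂ) (t : ℂ), (fun i => (Polynomial.C (P i) +
      Polynomial.X * Polynomial.C (Q i) + Polynomial.X ^ 2 * Polynomial.C (R i)).eval t) =
      P + t • Q + t ^ 2 • R := by
    intro P Q R t
    funext i
    simp only [Polynomial.eval_add, Polynomial.eval_C, Polynomial.eval_mul, Polynomial.eval_pow,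
      Polynomial.eval_X, Pi.add_apply, Pi.smul_apply, smul_eq_mul]
  have hhol : ∀ (P Q R : Fin (N + 1) → ℂ) (hPQ : ∀ t : ℂ, t ≠ 0 → P + t • Q + t ^ 2 • R ≠ 0)
      (τ : ℂ → ℂ) (hτ0 : ∀ z, τ z ≠ 0) (z : ℂ), AnalyticAt ℂ τ z →
      HolomorphicAt (fun w => Projectivization.mk ℂ (P + τ w • Q + τ w ^ 2 • R)
        (hPQ _ (hτ0 w))) z := by
    intro P Q R hPQ τ hτ0 z hτ
    refine ⟨fun w => P + τ w • Q + τ w ^ 2 • R, ?_,
      Filter.Eventually.of_forall fun w => ⟨hPQ _ (hτ0 w), rfl⟩⟩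
    exact (analyticAt_const.add (hτ.smul analyticAt_const)).add
      ((hτ.pow 2).smul analyticAt_const)
  refine ⟨?_, ?_, ?_, ?_⟩
  · intro x hx
    obtain ⟨P, Q, R, hPQ, hX, h1, σ, hσ, h2⟩ := exists_parametrisation e G F hG hF hdeg hc x hx
    refine ⟨P, Q, R, hPQ, hX, ⟨σ, hσ, ?_⟩, h1⟩
    rw [← h1]
    exact (mk_ne_of_indep _ _ h2).symm
  · apply zariskiClosureIn_eq_of_subset
    intro x hx
    obtain ⟨P, Q, R, hPQ, hX, h1, σ, hσ, h2⟩ := exists_parametrisation e G F hG hF hdeg hc x hx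
    classical
    refine ⟨fun i => Polynomial.C (P i) + Polynomial.X * Polynomial.C (Q i) +
        Polynomial.X ^ 2 * Polynomial.C (R i),
      fun t => if ht : t ≠ 0 then Projectivization.mk ℂ _ (hPQ t ht) else x, ?_, ?_,
      ⟨1, σ, one_ne_zero, hσ, ?_⟩, 1, one_ne_zero, ?_⟩
    · intro t ht
      refine ⟨by rw [hpoly]; exact hPQ t ht, ?_⟩
      simp only [dif_pos ht, hpoly]
    · intro t ht
      simp only [dif_pos ht]
      exact hX t ht
    · simp only [dif_pos hσ, dif_pos (one_ne_zero : (1 : ℂ) ≠ 0)]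
      exact mk_ne_of_indep _ _ h2
    · simp only [dif_pos (one_ne_zero : (1 : ℂ) ≠ 0)]
      exact h1
  · apply zariskiClosureIn_eq_of_subset
    intro x hx
    obtain ⟨P, Q, R, hPQ, hX, h1, σ, hσ, h2⟩ := exists_parametrisation e G F hG hF hdeg hc x hx
    refine ⟨fun z => Projectivization.mk ℂ (P + Complex.exp z • Q + Complex.exp z ^ 2 • R)
      (hPQ _ (Complex.exp_ne_zero z)), ?_, ?_, ?_, 0, ?_⟩
    · intro z
      exact hhol P Q R hPQ Complex.exp Complex.exp_ne_zero z (by fun_prop)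
    · intro z
      exact hX _ (Complex.exp_ne_zero z)
    · refine ⟨0, Complex.log σ, ?_⟩
      simp only [Complex.exp_zero, Complex.exp_log hσ]
      exact mk_ne_of_indep _ _ h2
    · simp only [Complex.exp_zero]
      exact h1
  · apply zariskiClosureIn_eq_of_subset
    intro x hx
    obtain ⟨P, Q, R, hPQ, hX, h1, σ, hσ, h2⟩ := exists_parametrisation e G F hG hF hdeg hc x hx
    have hpi : (2 * (Real.pi : ℂ) * Complex.I) ≠ 0 := Complex.two_pi_I_ne_zero
    have htend : ∀ r : ℂ, Tendsto (fun k : ℕ => (r + (k : ℂ) * (2 * (Real.pi : ℂ) * Complex.I))⁻¹)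
        atTop (𝓝 0) := by
      intro r
      rw [tendsto_zero_iff_norm_tendsto_zero]
      simp only [norm_inv]
      apply Tendsto.inv_tendsto_atTop
      have h3 : Tendsto (fun k : ℕ => (k : ℝ) * ‖2 * (Real.pi : ℂ) * Complex.I‖ - ‖r‖) atTop
          atTop := by
        apply tendsto_atTop_add_const_right
        exact Tendsto.atTop_mul_const (norm_pos_iff.mpr hpi) tendsto_natCast_atTop_atTop
      refine tendsto_atTop_mono (fun k => ?_) h3
      have h4 : ‖(k : ℂ) * (2 * (Real.pi : ℂ) * Complex.I)‖ =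
          (k : ℝ) * ‖2 * (Real.pi : ℂ) * Complex.I‖ := by
        rw [norm_mul, Complex.norm_natCast]
      rw [← h4]
      have h5 := norm_sub_norm_le ((k : ℂ) * (2 * (Real.pi : ℂ) * Complex.I)) (-r)
      rw [norm_neg, sub_neg_eq_add] at h5
      rw [add_comm r]
      exact h5
    have hexp : ∀ (r : ℂ) (k : ℕ),
        Complex.exp ((r + (k : ℂ) * (2 * (Real.pi : ℂ) * Complex.I))⁻¹)⁻¹ = Complex.exp r := by
      intro r k
      rw [inv_inv]
      exact Complex.exp_periodic.nat_mul k r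
    refine ⟨fun z => Projectivization.mk ℂ
      (P + Complex.exp z⁻¹ • Q + Complex.exp z⁻¹ ^ 2 • R) (hPQ _ (Complex.exp_ne_zero _)),
      ?_, ?_, (2 * (Real.pi : ℂ) * Complex.I)⁻¹, ?_, ?_, ?_⟩
    · intro z hz _
      have hz0 : z ≠ 0 := norm_pos_iff.mp hz
      refine ⟨hhol P Q R hPQ (fun z => Complex.exp z⁻¹) (fun z => Complex.exp_ne_zero _) z ?_,
        hX _ (Complex.exp_ne_zero _)⟩
      exact (analyticAt_id.inv hz0).cexp
    · rintro ⟨g, hg, hgf⟩
      have hsmall : ∀ r : ℂ, ∀ᶠ k : ℕ in atTop,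
          g ((r + (k : ℂ) * (2 * (Real.pi : ℂ) * Complex.I))⁻¹) =
            Projectivization.mk ℂ (P + Complex.exp r • Q + Complex.exp r ^ 2 • R)
              (hPQ _ (Complex.exp_ne_zero r)) := by
        intro r
        have h3 : ∀ᶠ k : ℕ in atTop,
            ‖(r + (k : ℂ) * (2 * (Real.pi : ℂ) * Complex.I))⁻¹‖ < 1 := by
          have := (htend r).norm
          rw [norm_zero] at this
          exact this.eventually (gt_mem_nhds one_pos)
        have h4 : ∀ᶠ k : ℕ in atTop,
            r + (k : ℂ) * (2 * (Real.pi : ℂ) * Complex.I) ≠ 0 := by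
          have h5 : Tendsto (fun k : ℕ => (k : ℝ) * ‖2 * (Real.pi : ℂ) * Complex.I‖)
              atTop atTop :=
            Tendsto.atTop_mul_const (norm_pos_iff.mpr hpi) tendsto_natCast_atTop_atTop
          filter_upwards [h5.eventually_gt_atTop ‖r‖] with k hk h6
          have h7 : r = -((k : ℂ) * (2 * (Real.pi : ℂ) * Complex.I)) :=
            eq_neg_of_add_eq_zero_left h6
          rw [h7, norm_neg, norm_mul, Complex.norm_natCast] at hk
          exact lt_irrefl _ hk
        filter_upwards [h3, h4] with k hk1 hk2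
        rw [hgf _ (norm_pos_iff.mpr (inv_ne_zero hk2)) hk1]
        simp only [hexp]
      have h3 := hsmall 0
      have h4 := hsmall (Complex.log σ)
      simp only [Complex.exp_zero, Complex.exp_log hσ] at h3 h4
      exact not_extend g (hg 0 (by simp)) _ _ (htend 0) (htend (Complex.log σ)) _ _
        (hPQ 1 one_ne_zero) (hPQ σ hσ) h3 h4 h2
    · exact norm_pos_iff.mpr (inv_ne_zero hpi)
    · rw [norm_inv]
      apply inv_lt_one_of_one_lt₀
      rw [norm_mul, norm_mul, Complex.norm_I, mul_one]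
      simp only [Complex.norm_ofNat, Complex.norm_real, Real.norm_eq_abs,
        abs_of_pos Real.pi_pos]
      linarith [Real.pi_gt_three]
    · simp only [inv_inv, Complex.exp_two_pi_mul_I]
      exact h1

end Pool.Agent.Results.MP_160ed4_ag.AffineConics

/-
Claim file of this (currently not handed in) result, kept here as a comment:

Proves: Let Y in P^N over C be the zero set of homogeneous G_1,...,G_c of degrees e_i, with c < N and sum e_i <= N, let F be homogeneous of degree 1 and X = Y minus {F=0} (no smoothness assumed). Then every point of X lies on a non-constant curve t -> [P+tQ+t^2R] (a line or conic) lying in X for all t in C minus 0, and Sp_Gm(X) = X, Sp_h(X) = X, Sp_p(X) = X.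
Definitions: PSpace N: P^N; VanishesAt: a homogeneous form vanishes at a point; quasiProjective: X; zariskiClosureIn X S: Zariski closure of S in X; HolomorphicAt: locally given by holomorphic homogeneous coordinates; SpH, SpP: Sp_h, Sp_p as in the problem; SpGm: closure of the union of images of non-constant algebraic morphisms G_m -> X (so contained in Sp_sab).
Relation: Partial answer (a family). For smooth complete intersections Y and smooth hyperplane sections D it treats every pair with K_Y+D <= 0, e.g. affine hypersurfaces of degree <= N in A^N (cubic surfaces, quartic threefolds): G_m is semi-abelian, so Sp_sab, Sp_h, Sp_p, Sp_alg all equal X and (2)-(5) fail, as (1) does since X is covered by such curves. Log Kodaira dimension is not formalised. New is the log Calabi-Yau case sum e_i = N, where no lines exist in general; MP_160ed4_ag.LogCYLines treats the pairs with deg D >= 2. Related earlier work: conics through a general point of a general smooth Fano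 complete intersection of index 1 (27 on cubic surfaces, 972 on quartic threefolds); here every point and all singularities are allowed.
-/
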