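import Pool.Agent.H71.Prod.Global
import Pool.Agent.H19.OG.Final

/-!
# Regular proper models over the integers of products of quadrics over number fields
-/

set_option autoImplicit false
open AlgebraicGeometry CategoryTheory

namespace Pool.Agent.Results.MP_4d1008_ag.ProductsOfQuadrics

/-- The generic point `(1, t_{i,0}, …, t_{i,n_i-1})` of the standard affine open subset of the
`i`-th projective space, with coordinates in the polynomial ring over `F` in all the variables
`t_{i,a}`. -/
noncomputable def genericPoint (F : Type) [Field F] {k : ℕ} (n : Fin k → ℕ) (i : Fin k) :
    Fin (n i + 1) → MvPolynomial (Σ i : Fin k, Fin (n i)) F :=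
  Fin.cons 1 fun a => MvPolynomial.X ⟨i, a⟩

/-- The dehomogenization `q_i(1, t_{i,0}, …, t_{i,n_i-1})` of the quadratic form
`q_i(x) = ∑ S i c d * x_c * x_d`. -/
noncomputable def affineQuadric {F : Type} [Field F] {k : ℕ} {n : Fin k → ℕ}
    (S : ∀ i, Matrix (Fin (n i + 1)) (Fin (n i + 1)) F) (i : Fin k) :
    MvPolynomial (Σ i : Fin k, Fin (n i)) F :=
  ∑ c, ∑ d, MvPolynomial.C (S i c d) * (genericPoint F n i c * genericPoint F n i d)

/-- The field of rational functions in `s` variables over the function field of the product over
`F` of the quadrics `q_i = 0`: the ring of fractions of `R[u₁, …, u_s]`, where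
`R = F[t] / (q_1(1, t_1), …, q_k(1, t_k))` is the coordinate ring of the product of the standard
affine open subsets. -/
abbrev ProductFunctionField {F : Type} [Field F] {k : ℕ} {n : Fin k → ℕ}
    (S : ∀ i, Matrix (Fin (n i + 1)) (Fin (n i + 1)) F) (s : ℕ) : Type :=
  FractionRing (MvPolynomial (Fin s)
    (MvPolynomial (Σ i : Fin k, Fin (n i)) F ⧸ Ideal.span (Set.range (affineQuadric S))))

/-- Let `F` be a number field, let `S i`, `i < k`, be invertible symmetric matrices over `F` of odd
sizes `n i + 1 ≥ 3`, let `s` be a natural number, and let `X` be an integral scheme of finite type
over `Spec ℤ` whose function field is the field of rational functions in `s` variables over the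
function field of the product of the `k` quadrics `∑ S i c d * x_c * x_d = 0` over `F`. Then there
is an integral scheme `X'`, proper over `Spec ℤ`, all of whose local rings are regular (Krull
dimension equals cotangent space dimension) and which has the same function field as `X`. -/
theorem result :
    ∀ (F : Type) [Field F] [NumberField F] (k s : ℕ) (n : Fin k → ℕ),
      (∀ i, Even (n i) ∧ 2 ≤ n i) →
      ∀ (S : ∀ i, Matrix (Fin (n i + 1)) (Fin (n i + 1)) F), (∀ i, (S i).IsSymm) →
      (∀ i, (S i).det ≠ 0) →
      ∀ (X : Scheme.{0}) (_ : IsIntegral X) (f : X ⟶ Spec (CommRingCat.of ℤ)),
      LocallyOfFiniteType f → QuasiCompact f →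
      Nonempty (X.functionField ≃+* ProductFunctionField S s) →
      ∃ (X' : Scheme.{0}) (_ : IsIntegral X') (g : X' ⟶ Spec (CommRingCat.of ℤ)),
        IsProper g ∧
        (∀ x : X',
          (((Module.finrank (IsLocalRing.ResidueField (X'.presheaf.stalk x))
              (IsLocalRing.CotangentSpace (X'.presheaf.stalk x)) : ℕ∞)) : WithBot ℕ∞)
            = ringKrullDim (X'.presheaf.stalk x)) ∧
        Nonempty (X'.functionField ≃+* X.functionField) := by
  intro F _ _ k s n hn S hS hdet X hX f _ _ ⟨e⟩
  have h1 : Pool.Agent.H19.OG.FracCharts (MvPolynomial (Fin s)
      (MvPolynomial (Σ i : Fin k, Fin (n i)) F ⧸ Ideal.span (Set.range (affineQuadric S)))) :=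
    (Pool.Agent.H71.Prod.fracCharts_PRing (fun i => (hn i).1)
      (fun i => le_trans one_le_two (hn i).2) S hS hdet).mvPolynomial s
  exact (h1.hasCharts e).exists_model

end Pool.Agent.Results.MP_4d1008_ag.ProductsOfQuadrics

/-
Claim file of this (currently not handed in) result, kept here as a comment:

Proves: For every number field F, all k and s, and all invertible symmetric matrices S_1,...,S_k over F of odd sizes n_i+1 >= 3, every integral scheme X of finite type over Z whose function field is the field of rational functions in s variables over the function field of the product over F of the k quadrics sum S_i(c,d) x_c x_d = 0 has an integral scheme X', proper over Z, with all local rings regular (Krull dimension = cotangent space dimension) and the same function field as X.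
Definitions: genericPoint F n i = (1,t_{i,0},...,t_{i,n_i-1}); affineQuadric S i is the i-th quadratic form at it, in F[t]; ProductFunctionField S s is the ring of fractions of R[u_1,...,u_s], R = F[t]/(affineQuadric S i : i) (if it is not a field nothing is claimed).
Relation: Partial answer to Q1 in arbitrary dimension: it settles Q1 for all X birational to products of quadrics in odd numbers of variables (conics included), times affine spaces, over any number field, with arbitrary common bad primes, dyadic ones included. k=1 is a case of our hand-ins NumberFieldQuadrics and IsotropicGrassmannians; products of semistable curves (Gross-Schoen, Hartl) are the nearest known case; new for nonrational products of absolute dimension at least 4. Method: product of regular models with isolated singular points of the fibres, p*unit = Q(x), then blow up all ideals m_i+m_j of these points; all charts are regular.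
-/
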